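import Mathlib

/-! Restricted Lie algebras (in the sense of Jacobson) and restricted enveloping algebras. -/

namespace Q12.RestrLie

/-- `jac x y k j` is the coefficient of `T ^ j` in `(ad (T x + y)) ^ k (x)`. -/
def jac {L : Type*} [LieRing L] (x y : L) : ℕ → ℕ → L
  | 0, 0 => x
  | 0, _ + 1 => 0
  | k + 1, 0 => ⁅y, jac x y k 0⁆
  | k + 1, j + 1 => ⁅x, jac x y k j⁆ + ⁅y, jac x y k (j + 1)⁆

/-- A restricted Lie algebra over the field `K` of characteristic `p` (Jacobson's axioms).
The elements `s_i(x, y)` of the third axiom are `i⁻¹` times the coefficient of `T ^ (i - 1)` in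
`(ad (T x + y)) ^ (p - 1) (x)`, for `1 ≤ i ≤ p - 1`. -/
class RestrictedLieAlgebra (p : ℕ) (K L : Type*) [Field K] [LieRing L] [LieAlgebra K L] where
  /-- the `p`-map `x ↦ x^[p]` -/
  pmap : L → L
  pmap_smul : ∀ (a : K) (x : L), pmap (a • x) = a ^ p • pmap x
  lie_pmap : ∀ x y : L, ⁅pmap x, y⁆ = (fun z => ⁅x, z⁆)^[p] y
  pmap_add : ∀ x y : L, pmap (x + y) = pmap x + pmap y +
    ∑ i ∈ Finset.Icc 1 (p - 1), ((i : K)⁻¹) • jac x y (p - 1) (i - 1)

section
variable (p : ℕ) (K L : Type*) [Field K] [LieRing L] [LieAlgebra K L]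
  [RestrictedLieAlgebra p K L]

/-- The defining relations of `u(L)` on the tensor algebra of `L`: `x y = y x + [x, y]` (these
define `U(L)`) and `x ^ p = x^[p]`. -/
inductive Rel : TensorAlgebra K L → TensorAlgebra K L → Prop
  | lie (x y : L) : Rel (TensorAlgebra.ι K x * TensorAlgebra.ι K y)
      (TensorAlgebra.ι K y * TensorAlgebra.ι K x + TensorAlgebra.ι K ⁅x, y⁆)
  | pow (x : L) : Rel (TensorAlgebra.ι K x ^ p)
      (TensorAlgebra.ι K (RestrictedLieAlgebra.pmap p K x))

/-- The restricted enveloping algebra `u(L) = U(L) / (x ^ p - x^[p] : x ∈ L)`. -/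
abbrev RestrictedEnvelopingAlgebra : Type _ := RingQuot (Rel p K L)

/-- `L` is `p`-nilpotent: for every `x` some iterate of the `p`-map kills `x`. -/
def IsPNilpotent : Prop :=
  ∀ x : L, ∃ n : ℕ, 1 ≤ n ∧ (RestrictedLieAlgebra.pmap p K)^[n] x = 0

end

/-- `L` is nilpotent of class exactly `c`: `c` is the least number with `γ_{c+1}(L) = 0`
(Mathlib's `lowerCentralSeries K L L c` is `γ_{c+1}(L)`). -/
def HasClass (K L : Type*) [Field K] [LieRing L] [LieAlgebra K L] (c : ℕ) : Prop :=
  IsLeast {k : ℕ | LieModule.lowerCentralSeries K L L k = ⊥} c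

section
variable {p : ℕ} {K L : Type*} [Field K] [LieRing L] [LieAlgebra K L]
  [RestrictedLieAlgebra p K L]

/-- The canonical map `L → u(L)`. -/
noncomputable def mk (p : ℕ) (K : Type*) {L : Type*} [Field K] [LieRing L] [LieAlgebra K L]
    [RestrictedLieAlgebra p K L] : L →ₗ[K] RestrictedEnvelopingAlgebra p K L :=
  ((RingQuot.mkAlgHom K (Rel p K L)).toLinearMap).comp (TensorAlgebra.ι K)

theorem mk_pow (x : L) :
    (mk p K x : RestrictedEnvelopingAlgebra p K L) ^ p
      = mk p K (RestrictedLieAlgebra.pmap p K x) := by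
  have := RingQuot.mkAlgHom_rel K (Rel.pow (p := p) (K := K) x)
  rw [map_pow] at this
  exact this

theorem mk_lie' (x y : L) : (mk p K x * mk p K y : RestrictedEnvelopingAlgebra p K L)
    = mk p K y * mk p K x + mk p K ⁅x, y⁆ := by
  have := RingQuot.mkAlgHom_rel K (Rel.lie (p := p) (K := K) x y)
  rw [map_mul, map_add, map_mul] at this
  exact this

theorem mk_lie (x y : L) : (mk p K ⁅x, y⁆ : RestrictedEnvelopingAlgebra p K L)
    = mk p K x * mk p K y - mk p K y * mk p K x := by
  rw [mk_lie']; abel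

/-- universal property of `u(L)` -/
noncomputable def lift {A : Type*} [Ring A] [Algebra K A] (f : L →ₗ[K] A)
    (hl : ∀ x y : L, f x * f y = f y * f x + f ⁅x, y⁆)
    (hf : ∀ x : L, f x ^ p = f (RestrictedLieAlgebra.pmap p K x)) :
    RestrictedEnvelopingAlgebra p K L →ₐ[K] A :=
  RingQuot.liftAlgHom K ⟨TensorAlgebra.lift K f, by
    rintro _ _ (⟨x, y⟩ | ⟨x⟩)
    · rw [map_mul, map_add, map_mul]
      simp only [TensorAlgebra.lift_ι_apply]
      exact hl x y
    · rw [map_pow, TensorAlgebra.lift_ι_apply, TensorAlgebra.lift_ι_apply]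
      exact hf x⟩

theorem lift_mk {A : Type*} [Ring A] [Algebra K A] (f : L →ₗ[K] A)
    (hl : ∀ x y : L, f x * f y = f y * f x + f ⁅x, y⁆)
    (hf : ∀ x : L, f x ^ p = f (RestrictedLieAlgebra.pmap p K x)) (x : L) :
    lift f hl hf (mk p K x) = f x := by
  have := RingQuot.liftAlgHom_mkAlgHom_apply K (TensorAlgebra.lift K f)
    (s := Rel p K L) (by
      rintro _ _ (⟨x, y⟩ | ⟨x⟩)
      · rw [map_mul, map_add, map_mul]
        simp only [TensorAlgebra.lift_ι_apply]
        exact hl x y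
      · rw [map_pow, TensorAlgebra.lift_ι_apply, TensorAlgebra.lift_ι_apply]
        exact hf x) (TensorAlgebra.ι K x)
  rw [TensorAlgebra.lift_ι_apply] at this
  exact this

theorem hom_ext {A : Type*} [Ring A] [Algebra K A]
    {f g : RestrictedEnvelopingAlgebra p K L →ₐ[K] A}
    (h : ∀ x : L, f (mk p K x) = g (mk p K x)) : f = g := by
  apply RingQuot.ringQuot_ext'
  apply TensorAlgebra.hom_ext
  ext x
  exact h x

end

end Q12.RestrLie
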