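import Mathlib
import Pool.Agent.Q12.RestrLie.Basic

/-! The one-parameter family `Ex ε` of 8-dimensional restricted Lie algebras in characteristic 2. -/

namespace Q12.RestrLie

/-- The space `K^8` with basis `x, X, y, z, r, s, v, w` (indices `0, ..., 7`). -/
def Ex (K : Type*) (_ε : K) : Type _ := Fin 8 → K

namespace Ex
variable {K : Type*} [Field K] {ε : K}

instance : AddCommGroup (Ex K ε) := inferInstanceAs (AddCommGroup (Fin 8 → K))
instance : Module K (Ex K ε) := inferInstanceAs (Module K (Fin 8 → K))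
instance : FiniteDimensional K (Ex K ε) := inferInstanceAs (FiniteDimensional K (Fin 8 → K))

omit [Field K] in
theorem ext' {a b : Ex K ε} (h : ∀ i, a i = b i) : a = b := funext h

@[simp] theorem add_app (a b : Ex K ε) (i : Fin 8) : (a + b) i = a i + b i := rfl
@[simp] theorem zero_app (i : Fin 8) : (0 : Ex K ε) i = 0 := rfl
@[simp] theorem smul_app (c : K) (a : Ex K ε) (i : Fin 8) : (c • a) i = c * a i := rfl

/-- The bracket: `[x,y] = z`, `[x,s] = v`, `[r,y] = v`, `[x,z] = ε w`, `[X,y] = ε w`. -/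
def br (a b : Ex K ε) : Ex K ε :=
  ![0, 0, 0, a 0 * b 2 - a 2 * b 0, 0, 0,
    a 0 * b 5 - a 5 * b 0 + (a 4 * b 2 - a 2 * b 4),
    ε * (a 0 * b 3 - a 3 * b 0 + (a 1 * b 2 - a 2 * b 1))]

instance : Bracket (Ex K ε) (Ex K ε) := ⟨br⟩

@[simp] theorem br0 (a b : Ex K ε) : ⁅a, b⁆ 0 = 0 := rfl
@[simp] theorem br1 (a b : Ex K ε) : ⁅a, b⁆ 1 = 0 := rfl
@[simp] theorem br2 (a b : Ex K ε) : ⁅a, b⁆ 2 = 0 := rfl
@[simp] theorem br3 (a b : Ex K ε) : ⁅a, b⁆ 3 = a 0 * b 2 - a 2 * b 0 := rfl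
@[simp] theorem br4 (a b : Ex K ε) : ⁅a, b⁆ 4 = 0 := rfl
@[simp] theorem br5 (a b : Ex K ε) : ⁅a, b⁆ 5 = 0 := rfl
@[simp] theorem br6 (a b : Ex K ε) :
    ⁅a, b⁆ 6 = a 0 * b 5 - a 5 * b 0 + (a 4 * b 2 - a 2 * b 4) := rfl
@[simp] theorem br7 (a b : Ex K ε) :
    ⁅a, b⁆ 7 = ε * (a 0 * b 3 - a 3 * b 0 + (a 1 * b 2 - a 2 * b 1)) := rfl

instance : LieRing (Ex K ε) where
  add_lie a b c := ext' fun i => by fin_cases i <;> simp <;> ring
  lie_add a b c := ext' fun i => by fin_cases i <;> simp <;> ring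
  lie_self a := ext' fun i => by
    fin_cases i <;> simp <;> first | (right; ring) | ring
  leibniz_lie a b c := ext' fun i => by fin_cases i <;> simp <;> ring

instance : LieAlgebra K (Ex K ε) where
  lie_smul t a b := ext' fun i => by fin_cases i <;> simp <;> ring

/-- The squaring map: `x^[2] = X`, `v^[2] = w`, all other basis vectors have square `0`. -/
def sq (a : Ex K ε) : Ex K ε :=
  ![0, a 0 ^ 2, 0, a 0 * a 2, 0, 0, a 0 * a 5 + a 4 * a 2,
    a 6 ^ 2 + ε * (a 0 * a 3 + a 1 * a 2)]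

@[simp] theorem sq0 (a : Ex K ε) : sq a 0 = 0 := rfl
@[simp] theorem sq1 (a : Ex K ε) : sq a 1 = a 0 ^ 2 := rfl
@[simp] theorem sq2 (a : Ex K ε) : sq a 2 = 0 := rfl
@[simp] theorem sq3 (a : Ex K ε) : sq a 3 = a 0 * a 2 := rfl
@[simp] theorem sq4 (a : Ex K ε) : sq a 4 = 0 := rfl
@[simp] theorem sq5 (a : Ex K ε) : sq a 5 = 0 := rfl
@[simp] theorem sq6 (a : Ex K ε) : sq a 6 = a 0 * a 5 + a 4 * a 2 := rfl
@[simp] theorem sq7 (a : Ex K ε) :
    sq a 7 = a 6 ^ 2 + ε * (a 0 * a 3 + a 1 * a 2) := rfl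

theorem jac_two (a b : Ex K ε) :
    ∑ i ∈ Finset.Icc (1 : ℕ) (2 - 1), (((i : ℕ) : K)⁻¹) • jac a b (2 - 1) (i - 1) = ⁅b, a⁆ := by
  simp [jac]

instance [CharP K 2] : RestrictedLieAlgebra 2 K (Ex K ε) where
  pmap := sq
  pmap_smul c a := ext' fun i => by fin_cases i <;> simp <;> ring
  lie_pmap a b := ext' fun i => by
    fin_cases i <;> simp [Function.iterate_succ] <;> first | (left; ring) | ring
  pmap_add a b := by
    rw [jac_two]
    have h2 : (2 : K) = 0 := CharTwo.two_eq_zero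
    refine ext' fun i => ?_
    fin_cases i <;> simp
    · linear_combination (a 0 * b 0) * h2
    · linear_combination (b 2 * a 0) * h2
    · linear_combination (a 0 * b 5 + a 4 * b 2) * h2
    · linear_combination (a 6 * b 6 + ε * (a 0 * b 3 + a 1 * b 2)) * h2

theorem pmap_eq [CharP K 2] (a : Ex K ε) :
    (RestrictedLieAlgebra.pmap 2 K a : Ex K ε) = sq a := rfl

theorem isPNilpotent [CharP K 2] : IsPNilpotent 2 K (Ex K ε) := by
  intro a
  refine ⟨3, by norm_num, ?_⟩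
  have h : (RestrictedLieAlgebra.pmap 2 K : Ex K ε → Ex K ε) = sq := rfl
  rw [h]
  exact ext' fun i => by fin_cases i <;> simp [Function.iterate_succ]

/-! lower central series -/

/-- the span of `z, v, w` -/
def N1 (K : Type*) [Field K] (ε : K) : LieSubmodule K (Ex K ε) (Ex K ε) where
  carrier := {a | a 0 = 0 ∧ a 1 = 0 ∧ a 2 = 0 ∧ a 4 = 0 ∧ a 5 = 0}
  zero_mem' := by simp
  add_mem' := by
    rintro a b ⟨h0, h1, h2, h4, h5⟩ ⟨g0, g1, g2, g4, g5⟩
    simp [h0, h1, h2, h4, h5, g0, g1, g2, g4, g5]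
  smul_mem' := by
    rintro c a ⟨h0, h1, h2, h4, h5⟩
    simp [h0, h1, h2, h4, h5]
  lie_mem := by
    rintro x a _
    simp

/-- the span of `ε w` -/
def N2 (K : Type*) [Field K] (ε : K) : LieSubmodule K (Ex K ε) (Ex K ε) where
  carrier := {a | a 0 = 0 ∧ a 1 = 0 ∧ a 2 = 0 ∧ a 3 = 0 ∧ a 4 = 0 ∧ a 5 = 0 ∧ a 6 = 0 ∧
    (ε = 0 → a 7 = 0)}
  zero_mem' := by simp
  add_mem' := by
    rintro a b ⟨h0, h1, h2, h3, h4, h5, h6, h7⟩ ⟨g0, g1, g2, g3, g4, g5, g6, g7⟩
    refine ⟨by simp [h0, g0], by simp [h1, g1], by simp [h2, g2], by simp [h3, g3],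
      by simp [h4, g4], by simp [h5, g5], by simp [h6, g6], fun h => by simp [h7 h, g7 h]⟩
  smul_mem' := by
    rintro c a ⟨h0, h1, h2, h3, h4, h5, h6, h7⟩
    refine ⟨by simp [h0], by simp [h1], by simp [h2], by simp [h3],
      by simp [h4], by simp [h5], by simp [h6], fun h => by simp [h7 h]⟩
  lie_mem := by
    rintro x a ⟨h0, h1, h2, h3, h4, h5, h6, h7⟩
    simp [h0, h1, h2, h3, h4, h5]

open LieModule in
theorem lcs1_le : lowerCentralSeries K (Ex K ε) (Ex K ε) 1 ≤ N1 K ε := by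
  rw [lowerCentralSeries_succ, lowerCentralSeries_zero, LieSubmodule.lie_le_iff]
  rintro a _ b _
  exact ⟨rfl, rfl, rfl, rfl, rfl⟩

open LieModule in
theorem lcs2_le : lowerCentralSeries K (Ex K ε) (Ex K ε) 2 ≤ N2 K ε := by
  rw [lowerCentralSeries_succ, LieSubmodule.lie_le_iff]
  rintro a _ b hb
  obtain ⟨h0, h1, h2, h4, h5⟩ := lcs1_le hb
  refine ⟨rfl, rfl, rfl, by simp [h0, h2], rfl, rfl, by simp [h0, h5, h2, h4], fun h => by simp [h]⟩

open LieModule in
theorem lcs3 : lowerCentralSeries K (Ex K ε) (Ex K ε) 3 = ⊥ := by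
  rw [eq_bot_iff, lowerCentralSeries_succ, LieSubmodule.lie_le_iff]
  rintro a _ b hb
  obtain ⟨h0, h1, h2, h3, h4, h5, h6, h7⟩ := lcs2_le hb
  rw [LieSubmodule.mem_bot]
  exact ext' fun i => by fin_cases i <;> simp [h0, h1, h2, h3, h4, h5]

/-- basis vectors -/
def e (i : Fin 8) : Ex K ε := Pi.single i 1

open LieModule in
theorem hasClass_three (hε : ε ≠ 0) : HasClass K (Ex K ε) 3 := by
  refine ⟨lcs3, fun k hk => ?_⟩
  by_contra hlt
  have hle : k ≤ 2 := by omega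
  have h2 : lowerCentralSeries K (Ex K ε) (Ex K ε) 2 = ⊥ := by
    rw [eq_bot_iff]
    exact (antitone_lowerCentralSeries K (Ex K ε) (Ex K ε) hle).trans (le_of_eq hk)
  have hmem : ⁅(e 0 : Ex K ε), ⁅(e 0 : Ex K ε), (e 2 : Ex K ε)⁆⁆ ∈
      lowerCentralSeries K (Ex K ε) (Ex K ε) 2 := by
    rw [lowerCentralSeries_succ]
    apply LieSubmodule.lie_mem_lie (LieSubmodule.mem_top _)
    rw [lowerCentralSeries_succ]
    exact LieSubmodule.lie_mem_lie (LieSubmodule.mem_top _) (by simp)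
  rw [h2, LieSubmodule.mem_bot] at hmem
  have := congrFun hmem 7
  simp [e] at this
  exact hε this

open LieModule in
theorem hasClass_two : HasClass K (Ex K (0 : K)) 2 := by
  refine ⟨?_, fun k hk => ?_⟩
  · show lowerCentralSeries K (Ex K (0 : K)) (Ex K (0 : K)) 2 = ⊥
    rw [eq_bot_iff]
    intro a ha
    obtain ⟨h0, h1, h2, h3, h4, h5, h6, h7⟩ := lcs2_le ha
    rw [LieSubmodule.mem_bot]
    exact ext' fun i => by fin_cases i <;> simp [h0, h1, h2, h3, h4, h5, h6, h7 rfl]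
  · by_contra hlt
    have hle : k ≤ 1 := by omega
    have h2 : lowerCentralSeries K (Ex K (0 : K)) (Ex K (0 : K)) 1 = ⊥ := by
      rw [eq_bot_iff]
      exact (antitone_lowerCentralSeries K (Ex K (0 : K)) (Ex K (0 : K)) hle).trans (le_of_eq hk)
    have hmem : ⁅(e 0 : Ex K (0 : K)), (e 2 : Ex K (0 : K))⁆ ∈
        lowerCentralSeries K (Ex K (0 : K)) (Ex K (0 : K)) 1 := by
      rw [lowerCentralSeries_succ]
      exact LieSubmodule.lie_mem_lie (LieSubmodule.mem_top _) (by simp)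
    rw [h2, LieSubmodule.mem_bot] at hmem
    have := congrFun hmem 3
    simp [e] at this

end Ex

end Q12.RestrLie
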