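import Mathlib
import Pool.Agent.Q12.RestrLie.Two

/-! `u(Ex ε) ≃ u(Ex (ε + 1))` in characteristic 2. -/

namespace Q12.RestrLie

section alg
variable {K A : Type*} [Field K] [Ring A] [Algebra K A]

theorem crs {r s v M : A} {a0 a2 : K} (hr : M * r = r * M - a2 • v) (hs : M * s = s * M + a0 • v) :
    M * (r * s) = (r * s) * M + a0 • (r * v) - a2 • (v * s) := by
  rw [← mul_assoc, hr, sub_mul, mul_assoc, hs, mul_add, mul_assoc, smul_mul_assoc,
    mul_smul_comm]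

theorem crv {r v w M : A} {a2 : K} (hr : M * r = r * M - a2 • v) (hv : M * v = v * M)
    (hvv : v * v = w) : M * (r * v) = (r * v) * M - a2 • w := by
  rw [← mul_assoc, hr, sub_mul, mul_assoc, hv, mul_assoc, smul_mul_assoc, hvv]

theorem cvs {s v w M : A} {a0 : K} (hs : M * s = s * M + a0 • v) (hv : M * v = v * M)
    (hvv : v * v = w) : M * (v * s) = (v * s) * M + a0 • w := by
  rw [← mul_assoc, hv, mul_assoc, hs, mul_add, mul_assoc, mul_smul_comm, hvv]

theorem comm_corr {r s v : A} (hrs : Commute r s) (hrv : Commute r v) (hsv : Commute s v)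
    (a0 a1 a3 b0 b1 b3 : K) :
    Commute (a0 • (r * s) + a1 • (r * v) + a3 • (v * s))
      (b0 • (r * s) + b1 • (r * v) + b3 • (v * s)) := by
  have R : ∀ x ∈ ({r, s, v} : Set A), ∀ y ∈ ({r, s, v} : Set A), Commute x y := by
    rintro x (rfl | rfl | rfl) y (rfl | rfl | rfl)
    · exact Commute.refl _
    · exact hrs
    · exact hrv
    · exact hrs.symm
    · exact Commute.refl _
    · exact hsv
    · exact hrv.symm
    · exact hsv.symm
    · exact Commute.refl _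
  have P : ∀ x ∈ ({r, s, v} : Set A), ∀ y ∈ ({r, s, v} : Set A), ∀ x' ∈ ({r, s, v} : Set A),
      ∀ y' ∈ ({r, s, v} : Set A), Commute (x * y) (x' * y') := fun x hx y hy x' hx' y' hy' =>
    ((R x hx x' hx').mul_right (R x hx y' hy')).mul_left
      ((R y hy x' hx').mul_right (R y hy y' hy'))
  have hr : r ∈ ({r, s, v} : Set A) := by simp
  have hs : s ∈ ({r, s, v} : Set A) := by simp
  have hv : v ∈ ({r, s, v} : Set A) := by simp
  refine Commute.add_left (Commute.add_left ?_ ?_) ?_ <;>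
  refine Commute.add_right (Commute.add_right ?_ ?_) ?_ <;>
  refine Commute.smul_left (Commute.smul_right (P _ ?_ _ ?_ _ ?_ _ ?_) _) _ <;> assumption

theorem corr_sq (h2 : ∀ t : A, t + t = 0) {r s v : A} (hrs : Commute r s) (hrv : Commute r v)
    (hsv : Commute s v) (hrr : r * r = 0) (hss : s * s = 0) (a0 a1 a3 : K) :
    (a0 • (r * s) + a1 • (r * v) + a3 • (v * s)) * (a0 • (r * s) + a1 • (r * v) + a3 • (v * s))
      = 0 := by
  have e1 : (r * s) * (r * s) = 0 := by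
    rw [mul_assoc, ← mul_assoc s r s, ← hrs.eq, mul_assoc, hss, mul_zero, mul_zero]
  have e2 : (r * s) * (r * v) = 0 := by
    rw [← mul_assoc, mul_assoc r s r, ← hrs.eq, ← mul_assoc r r s, hrr, zero_mul, zero_mul]
  have e3 : (r * s) * (v * s) = 0 := by
    rw [mul_assoc, ← mul_assoc s v s, hsv.eq, mul_assoc, hss, mul_zero, mul_zero]
  have e4 : (r * v) * (r * s) = 0 := by
    rw [← mul_assoc, mul_assoc r v r, ← hrv.eq, ← mul_assoc r r v, hrr, zero_mul, zero_mul]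
  have e5 : (r * v) * (r * v) = 0 := by
    rw [← mul_assoc, mul_assoc r v r, ← hrv.eq, ← mul_assoc r r v, hrr, zero_mul, zero_mul]
  have e6 : (v * s) * (r * s) = 0 := by
    rw [mul_assoc, ← mul_assoc s r s, ← hrs.eq, mul_assoc, hss, mul_zero, mul_zero]
  have e7 : (v * s) * (v * s) = 0 := by
    rw [mul_assoc, ← mul_assoc s v s, hsv.eq, mul_assoc, hss, mul_zero, mul_zero]
  have e8 : (v * s) * (r * v) = (r * v) * (v * s) := by
    have hc : Commute (v * s) (r * v) :=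
      (hrv.symm.mul_right (Commute.refl v)).mul_left (hrs.symm.mul_right hsv)
    exact hc.eq
  simp only [add_mul, mul_add, smul_mul_assoc, mul_smul_comm, e1, e2, e3, e4, e5, e6, e7, e8,
    smul_zero, zero_add, add_zero]
  rw [smul_comm a3 a1]
  exact h2 _

end alg

namespace Ex
variable {K : Type*} [Field K] [CharP K 2] {ε ε' : K}

/-- `u(Ex ε)` -/
abbrev U (ε : K) : Type _ := RestrictedEnvelopingAlgebra 2 K (Ex K ε)

/-- change the parameter (identity on coordinates) -/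
def re (ε' : K) (a : Ex K ε) : Ex K ε' := fun i => a i

omit [Field K] [CharP K 2] in
@[simp] theorem re_app (a : Ex K ε) (i : Fin 8) : re ε' a i = a i := rfl

noncomputable abbrev g (ε : K) (i : Fin 8) : U ε := mk 2 K (e i : Ex K ε)

omit [CharP K 2] in
@[simp] theorem neg_app (a : Ex K ε) (i : Fin 8) : (-a) i = -a i := rfl
omit [CharP K 2] in
@[simp] theorem sub_app (a b : Ex K ε) (i : Fin 8) : (a - b) i = a i - b i := rfl

theorem two_zero (t : U ε) : t + t = 0 :=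
  (two_smul K t).symm.trans
    ((congrArg (· • t) (CharTwo.two_eq_zero (R := K))).trans (zero_smul K t))

theorem swap (a b c : Ex K ε) (h : ⁅a, b⁆ = c) :
    (mk 2 K a : U ε) * mk 2 K b = mk 2 K b * mk 2 K a + mk 2 K c := by
  rw [← h, mk_lie]; abel

theorem hr (a : Ex K ε) : (mk 2 K a : U ε) * g ε 4 = g ε 4 * mk 2 K a - a 2 • g ε 6 := by
  rw [swap a (e 4) (-(a 2 • e 6)) (ext' fun i => by fin_cases i <;> simp [e])]
  rw [map_neg, map_smul, sub_eq_add_neg]

theorem hs (a : Ex K ε) : (mk 2 K a : U ε) * g ε 5 = g ε 5 * mk 2 K a + a 0 • g ε 6 := by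
  rw [swap a (e 5) (a 0 • e 6) (ext' fun i => by fin_cases i <;> simp [e])]
  rw [map_smul]

theorem hv (a : Ex K ε) : (mk 2 K a : U ε) * g ε 6 = g ε 6 * mk 2 K a := by
  rw [swap a (e 6) 0 (ext' fun i => by fin_cases i <;> simp [e])]
  rw [map_zero, add_zero]

theorem sqr (a b : Ex K ε) (h : sq a = b) :
    (mk 2 K a : U ε) * mk 2 K a = mk 2 K b := by
  rw [← h, ← pmap_eq, ← mk_pow, pow_two]

theorem hvv : (g ε 6 : U ε) * g ε 6 = g ε 7 :=
  sqr _ _ (ext' fun i => by fin_cases i <;> simp [e])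

theorem hrr : (g ε 4 : U ε) * g ε 4 = 0 := by
  rw [sqr (e 4) 0 (ext' fun i => by fin_cases i <;> simp [e]), map_zero]

theorem hss : (g ε 5 : U ε) * g ε 5 = 0 := by
  rw [sqr (e 5) 0 (ext' fun i => by fin_cases i <;> simp [e]), map_zero]

theorem crs' : Commute (g ε 4 : U ε) (g ε 5) := by
  have h := hs (e 4 : Ex K ε)
  rw [show (e 4 : Ex K ε) 0 = 0 by simp [e], zero_smul, add_zero] at h
  exact h

theorem crv' : Commute (g ε 4 : U ε) (g ε 6) := hv (e 4 : Ex K ε)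

theorem csv' : Commute (g ε 5 : U ε) (g ε 6) := hv (e 5 : Ex K ε)

/-- the correction term `a_x r s + a_X r v + a_z v s` -/
noncomputable def cor (ε : K) (a0 a1 a3 : K) : U ε :=
  a0 • (g ε 4 * g ε 5) + a1 • (g ε 4 * g ε 6) + a3 • (g ε 6 * g ε 5)

theorem mk_mul_cor (a : Ex K ε) (b0 b1 b3 : K) :
    (mk 2 K a : U ε) * cor ε b0 b1 b3 = cor ε b0 b1 b3 * mk 2 K a
      + (b0 * a 0) • (g ε 4 * g ε 6) - (b0 * a 2) • (g ε 6 * g ε 5)
      + (b3 * a 0 - b1 * a 2) • g ε 7 := by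
  rw [cor, mul_add, mul_add, mul_smul_comm, mul_smul_comm, mul_smul_comm,
    crs (hr a) (hs a), crv (hr a) (hv a) hvv, cvs (hs a) (hv a) hvv, add_mul, add_mul,
    smul_mul_assoc, smul_mul_assoc, smul_mul_assoc]
  module

theorem cor_comm (a0 a1 a3 b0 b1 b3 : K) : cor ε a0 a1 a3 * cor ε b0 b1 b3
    = cor ε b0 b1 b3 * cor ε a0 a1 a3 :=
  (comm_corr crs' crv' csv' a0 a1 a3 b0 b1 b3).eq

theorem cor_sq (a0 a1 a3 : K) : cor ε a0 a1 a3 * cor ε a0 a1 a3 = 0 :=
  corr_sq two_zero crs' crv' csv' hrr hss a0 a1 a3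

theorem cor_add (a0 a1 a3 b0 b1 b3 : K) :
    cor ε (a0 + b0) (a1 + b1) (a3 + b3) = cor ε a0 a1 a3 + cor ε b0 b1 b3 := by
  simp only [cor]; module

theorem cor_smul (c a0 a1 a3 : K) :
    cor ε (c * a0) (c * a1) (c * a3) = c • cor ε a0 a1 a3 := by
  simp only [cor]; module

/-- The twisted embedding `Ex (ε + 1) → u(Ex ε)`. -/
noncomputable def tw (ε ε' : K) (_ : ε' = ε + 1) : Ex K ε' →ₗ[K] U ε where
  toFun a := mk 2 K (re ε a : Ex K ε) + cor ε (a 0) (a 1) (a 3)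
  map_add' a b := by
    have : re ε (a + b) = re ε a + re ε b := rfl
    rw [this, map_add, add_app, add_app, add_app, cor_add]; abel
  map_smul' c a := by
    have : re ε (c • a) = c • re ε a := rfl
    rw [this, map_smul, smul_app, smul_app, smul_app, cor_smul, RingHom.id_apply, smul_add]

theorem tw_apply (ε ε' : K) (h : ε' = ε + 1) (a : Ex K ε') :
    tw ε ε' h a = mk 2 K (re ε a : Ex K ε) + cor ε (a 0) (a 1) (a 3) := rfl

theorem tw_lie (ε ε' : K) (h : ε' = ε + 1) (a b : Ex K ε') :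
    tw ε ε' h a * tw ε ε' h b = tw ε ε' h b * tw ε ε' h a + tw ε ε' h ⁅a, b⁆ := by
  have key : re ε ⁅a, b⁆ = ⁅re ε a, re ε b⁆
      + (a 0 * b 3 - a 3 * b 0 + (a 1 * b 2 - a 2 * b 1)) • (e 7 : Ex K ε) := by
    refine ext' fun i => ?_
    fin_cases i <;> simp [e, h]
    ring
  rw [tw_apply, tw_apply, tw_apply, key, map_add, map_smul, mk_lie, br0, br1, br3]
  have h1 := mk_mul_cor (re ε a) (b 0) (b 1) (b 3)
  have h2 := mk_mul_cor (re ε b) (a 0) (a 1) (a 3)
  simp only [re_app] at h1 h2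
  rw [mul_add, add_mul, add_mul, mul_add, add_mul, add_mul, h1, h2,
    cor_comm (b 0) (b 1) (b 3) (a 0) (a 1) (a 3)]
  simp only [cor]
  module

theorem tw_sq (ε ε' : K) (h : ε' = ε + 1) (a : Ex K ε') :
    tw ε ε' h a ^ 2 = tw ε ε' h (RestrictedLieAlgebra.pmap 2 K a) := by
  rw [pmap_eq, tw_apply, tw_apply, pow_two, mul_add, add_mul, add_mul, cor_sq, add_zero,
    mk_mul_cor]
  have key : re ε (sq a) = sq (re ε a)
      + (a 0 * a 3 + a 1 * a 2) • (e 7 : Ex K ε) := by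
    refine ext' fun i => ?_
    fin_cases i <;> simp [e, h]
    ring
  rw [key, map_add, map_smul, ← sqr (re ε a) _ rfl, sq0, sq1, sq3]
  simp only [re_app]
  have h2 := two_zero (cor ε (a 0) (a 1) (a 3) * mk 2 K (re ε a))
  have h3 := two_zero ((a 0 * a 2) • (g ε 6 * g ε 5))
  have h4 := two_zero ((a 1 * a 2) • g ε 7)
  rw [← sub_eq_zero]
  trans (cor ε (a 0) (a 1) (a 3) * mk 2 K (re ε a) + cor ε (a 0) (a 1) (a 3) * mk 2 K (re ε a))
    - ((a 0 * a 2) • (g ε 6 * g ε 5) + (a 0 * a 2) • (g ε 6 * g ε 5))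
    - ((a 1 * a 2) • g ε 7 + (a 1 * a 2) • g ε 7)
  · rw [show cor ε 0 (a 0 ^ 2) (a 0 * a 2) = (a 0 ^ 2) • (g ε 4 * g ε 6)
      + (a 0 * a 2) • (g ε 6 * g ε 5) by rw [cor, zero_smul, zero_add]]
    module
  · rw [h2, h3, h4]; simp

/-- `u(Ex (ε + 1)) → u(Ex ε)` -/
noncomputable def F (ε ε' : K) (h : ε' = ε + 1) : U ε' →ₐ[K] U ε :=
  lift (tw ε ε' h) (tw_lie ε ε' h) (tw_sq ε ε' h)

theorem F_mk (ε ε' : K) (h : ε' = ε + 1) (a : Ex K ε') :
    F ε ε' h (mk 2 K a) = mk 2 K (re ε a : Ex K ε) + cor ε (a 0) (a 1) (a 3) :=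
  lift_mk _ _ _ a

theorem F_g (ε ε' : K) (h : ε' = ε + 1) (i : Fin 8) (h0 : i ≠ 0) (h1 : i ≠ 1) (h3 : i ≠ 3) :
    F ε ε' h (g ε' i) = g ε i := by
  rw [g, F_mk]
  have e0 : (e i : Ex K ε') 0 = 0 := Pi.single_eq_of_ne (Ne.symm h0) _
  have e1 : (e i : Ex K ε') 1 = 0 := Pi.single_eq_of_ne (Ne.symm h1) _
  have e3 : (e i : Ex K ε') 3 = 0 := Pi.single_eq_of_ne (Ne.symm h3) _
  rw [e0, e1, e3, cor, zero_smul, zero_smul, zero_smul, add_zero, add_zero, add_zero]
  rfl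

theorem F_cor (ε ε' : K) (h : ε' = ε + 1) (a0 a1 a3 : K) :
    F ε ε' h (cor ε' a0 a1 a3) = cor ε a0 a1 a3 := by
  rw [cor, map_add, map_add, map_smul, map_smul, map_smul,
    map_mul, map_mul, map_mul, F_g _ _ _ 4 (by decide) (by decide) (by decide),
    F_g _ _ _ 5 (by decide) (by decide) (by decide),
    F_g _ _ _ 6 (by decide) (by decide) (by decide), cor]

theorem F_F (ε ε' : K) (h : ε' = ε + 1) (h' : ε = ε' + 1) :
    (F ε ε' h).comp (F ε' ε h') = AlgHom.id K _ := by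
  apply hom_ext
  intro a
  rw [AlgHom.comp_apply, F_mk, map_add, F_mk, F_cor, AlgHom.id_apply, add_assoc]
  have h2 := two_zero (cor ε (a 0) (a 1) (a 3))
  exact (congrArg (fun t => mk 2 K (re ε (re ε' a)) + t) h2).trans (add_zero _)

/-- The restricted enveloping algebras of `Ex ε` and `Ex (ε + 1)` are isomorphic. -/
noncomputable def equiv (ε ε' : K) (h : ε' = ε + 1) : U ε' ≃ₐ[K] U ε :=
  have h' : ε = ε' + 1 := by rw [h, add_assoc, CharTwo.add_self_eq_zero, add_zero]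
  AlgEquiv.ofAlgHom (F ε ε' h) (F ε' ε h') (F_F ε ε' h h') (F_F ε' ε h' h)

end Ex

end Q12.RestrLie
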